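import Pool.Agent.Helper69.KC.Base

/-!
Packet B4 + B5 + H of MP_ec852d_co: the symmetry of `G0` exchanging the two sides, the explicit
subdivisions of `K_{3,3}`, and the dichotomy.
-/

set_option autoImplicit false

namespace Pool.Agent.Helper69.KC

open MGraph

/-- Transport of a drawing along an isomorphism. -/
def isoDrawing {V E V' E' : Type} (G : MGraph V E) (G' : MGraph V' E') (eV : V ≃ V') (eE : E ≃ E')
    (h : ∀ e, G'.ends (eE e) = (G.ends e).map eV) (D : G.Drawing) : G'.Drawing where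
  pos := fun v => D.pos (eV.symm v)
  pos_injective := D.pos_injective.comp eV.symm.injective
  arc := fun e => D.arc (eE.symm e)
  arc_continuousOn := fun e => D.arc_continuousOn _
  arc_injOn := fun e => D.arc_injOn _
  arc_ends := by
    intro e
    obtain ⟨u, v, huv, h0, h1⟩ := D.arc_ends (eE.symm e)
    refine ⟨eV u, eV v, ?_, ?_, ?_⟩
    · have := h (eE.symm e)
      rw [Equiv.apply_symm_apply, huv] at this
      rw [this]
      simp
    · simpa using h0
    · simpa using h1
  arc_avoids := fun e t ht v => D.arc_avoids _ t ht _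

lemma isoDrawing_crossings {V E V' E' : Type} (G : MGraph V E) (G' : MGraph V' E') (eV : V ≃ V')
    (eE : E ≃ E') (h : ∀ e, G'.ends (eE e) = (G.ends e).map eV) (D : G.Drawing) :
    (isoDrawing G G' eV eE h D).crossings.encard = D.crossings.encard := by
  have hinj : Function.Injective (fun x : Sym2 E × ℂ => (x.1.map eE, x.2)) := by
    rintro ⟨a, z⟩ ⟨b, w⟩ hab
    simp only [Prod.mk.injEq] at hab
    have := Sym2.map.injective eE.injective hab.1
    rw [this, hab.2]
  have : (isoDrawing G G' eV eE h D).crossings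
      = (fun x : Sym2 E × ℂ => (x.1.map eE, x.2)) '' D.crossings := by
    ext ⟨p, z⟩
    constructor
    · intro hx
      refine ⟨(p.map eE.symm, z), ?_, ?_⟩
      · obtain ⟨h1, h2⟩ := hx
        induction p using Sym2.ind with
        | _ a b =>
          refine ⟨?_, ?_⟩
          · simpa using h1
          · intro e he
            simp only [Sym2.map_mk, Sym2.mem_iff] at he
            rcases he with rfl | rfl
            · exact h2 a (by simp)
            · exact h2 b (by simp)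
      · simp [Sym2.map_map]
    · rintro ⟨⟨q, w⟩, ⟨h1, h2⟩, hq⟩
      simp only [Prod.mk.injEq] at hq
      obtain ⟨rfl, rfl⟩ := hq
      induction q using Sym2.ind with
      | _ a b =>
        refine ⟨?_, ?_⟩
        · simpa using h1
        · intro e he
          simp only [Sym2.map_mk, Sym2.mem_iff] at he
          rcases he with rfl | rfl
          · obtain ⟨t, ht, hh⟩ := h2 a (by simp)
            exact ⟨t, ht, by simpa [isoDrawing] using hh⟩
          · obtain ⟨t, ht, hh⟩ := h2 b (by simp)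
            exact ⟨t, ht, by simpa [isoDrawing] using hh⟩
  rw [this, hinj.encard_image]

lemma cr_le_of_iso {V E V' E' : Type} (G : MGraph V E) (G' : MGraph V' E') (eV : V ≃ V')
    (eE : E ≃ E') (h : ∀ e, G'.ends (eE e) = (G.ends e).map eV) : G'.cr ≤ G.cr := by
  unfold MGraph.cr
  refine le_iInf fun D => ?_
  rw [← isoDrawing_crossings G G' eV eE h D]
  exact iInf_le _ _

lemma cr_eq_of_iso {V E V' E' : Type} (G : MGraph V E) (G' : MGraph V' E') (eV : V ≃ V')
    (eE : E ≃ E') (h : ∀ e, G'.ends (eE e) = (G.ends e).map eV) : G.cr = G'.cr := by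
  apply le_antisymm
  · apply cr_le_of_iso G' G eV.symm eE.symm
    intro e
    have := h (eE.symm e)
    rw [Equiv.apply_symm_apply] at this
    rw [this, Sym2.map_map]
    simp
  · exact cr_le_of_iso G G' eV eE h

lemma sw_sw (g : Fin 20) : sw (sw g) = g := by
  revert g; decide

/-- Exchange of the two sides on vertices. -/
def swV : Fin 12 → Fin 12 := ![6, 7, 8, 9, 10, 11, 0, 1, 2, 3, 4, 5]

lemma swV_swV (v : Fin 12) : swV (swV v) = v := by
  revert v; decide

/-- The symmetry of vertices as a permutation. -/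
def eqV : Fin 12 ≃ Fin 12 := ⟨swV, swV, swV_swV, swV_swV⟩

lemma ends_sw (g : Fin 20) : G0.ends (sw g) = (G0.ends g).map eqV := by
  have : ∀ g : Fin 20, (src (sw g) = swV (src g) ∧ tgt (sw g) = swV (tgt g)) ∨
      (src (sw g) = swV (tgt g) ∧ tgt (sw g) = swV (src g)) := by decide
  show s(src (sw g), tgt (sw g)) = (s(src g, tgt g)).map eqV
  rcases this g with ⟨h1, h2⟩ | ⟨h1, h2⟩
  · rw [h1, h2]; rfl
  · rw [h1, h2, Sym2.eq_swap]; rfl

/-- The symmetry on the edges of the multiplied graphs. -/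
def eqE (m : Fin 20 → ℕ) : (Σ g : Fin 20, Fin ((m ∘ sw) g)) ≃ (Σ g : Fin 20, Fin (m g)) where
  toFun x := ⟨sw x.1, x.2⟩
  invFun x := ⟨sw x.1, Fin.cast (by simp [sw_sw]) x.2⟩
  left_inv := by
    rintro ⟨g, i⟩
    have hg := sw_sw g
    apply Sigma.ext
    · exact hg
    · simp only
      apply (Fin.heq_ext_iff (by simp [sw_sw])).2
      simp
  right_inv := by
    rintro ⟨g, i⟩
    apply Sigma.ext
    · exact sw_sw g
    · simp only
      apply (Fin.heq_ext_iff (by simp [sw_sw])).2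
      simp

theorem cr_sw (m : Fin 20 → ℕ) : (G0.multiply (m ∘ sw)).cr = (G0.multiply m).cr := by
  apply cr_eq_of_iso _ _ eqV (eqE m)
  rintro ⟨g, i⟩
  exact ends_sw g

theorem cr_sw_delete (m : Fin 20 → ℕ) (j : Fin (m 8)) :
    ((G0.multiply (m ∘ sw)).delete ⟨17, j⟩).cr = ((G0.multiply m).delete ⟨8, j⟩).cr := by
  have key : ∀ x : (Σ g : Fin 20, Fin ((m ∘ sw) g)),
      x ≠ (⟨17, j⟩ : (Σ g : Fin 20, Fin ((m ∘ sw) g))) ↔
      eqE m x ≠ (⟨8, j⟩ : (Σ g : Fin 20, Fin (m g))) := by
    intro x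
    have : eqE m (⟨17, j⟩ : (Σ g : Fin 20, Fin ((m ∘ sw) g))) = ⟨8, j⟩ := rfl
    rw [← this]
    exact ((eqE m).injective.ne_iff).symm
  apply cr_eq_of_iso _ _ eqV ((eqE m).subtypeEquiv key)
  rintro ⟨⟨g, i⟩, hx⟩
  exact ends_sw g

instance (i j : Fin 6) : Decidable (K33.Adj i j) := by
  unfold K33; infer_instance

/-- A list version of `IsWalk` for `G0` that is decidable. -/
def walkB : Fin 12 → Fin 12 → List (Fin 20 × Fin 12) → Bool
  | u, v, [] => decide (u = v)
  | u, v, (e, w) :: l =>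
    (decide ((src e = u ∧ tgt e = w) ∨ (src e = w ∧ tgt e = u))) && walkB w v l

lemma isWalk_of_walkB : ∀ (l : List (Fin 20 × Fin 12)) (u v : Fin 12), walkB u v l = true →
    G0.IsWalk u v l
  | [], u, v, h => by simpa [walkB, IsWalk] using h
  | (e, w) :: l, u, v, h => by
    simp only [walkB, Bool.and_eq_true, decide_eq_true_eq] at h
    refine ⟨?_, isWalk_of_walkB l w v h.2⟩
    show s(src e, tgt e) = s(u, w)
    rcases h.1 with ⟨h1, h2⟩ | ⟨h1, h2⟩
    · rw [h1, h2]
    · rw [h1, h2, Sym2.eq_swap]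

/-- A decidable certificate for a subdivision of `K33`. -/
lemma hasSub_of_cert (φ : Fin 6 → Fin 12) (P : Fin 6 → Fin 6 → List (Fin 20 × Fin 12))
    (e : Fin 20)
    (h1 : ∀ i j : Fin 6, i ≠ j → φ i ≠ φ j)
    (h2 : ∀ i j : Fin 6, i < j → K33.Adj i j → walkB (φ i) (φ j) (P i j) = true)
    (h3 : ∀ i j : Fin 6, i < j → K33.Adj i j → (φ i :: (P i j).map Prod.snd).Nodup)
    (h4 : ∀ i j : Fin 6, i < j → K33.Adj i j →
      ∀ w ∈ ((P i j).map Prod.snd).dropLast, ∀ k, w ≠ φ k)
    (h5 : ∀ i j i' j' : Fin 6, i < j → K33.Adj i j → i' < j' → K33.Adj i' j' →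
      (i, j) ≠ (i', j') →
      ∀ a ∈ ((P i j).map Prod.snd).dropLast, a ∉ ((P i' j').map Prod.snd).dropLast)
    (h6 : ∃ i j : Fin 6, i < j ∧ K33.Adj i j ∧ e ∈ (P i j).map Prod.fst) :
    G0.HasSubdivisionThrough K33 e := by
  refine ⟨φ, P, ?_, ?_, ?_, h6⟩
  · intro i j hij
    by_contra hne
    exact h1 i j hne hij
  · intro i j hij hadj
    exact ⟨isWalk_of_walkB _ _ _ (h2 i j hij hadj), h3 i j hij hadj, h4 i j hij hadj⟩
  · intro i j i' j' hij ha hij' ha' hne a hb hc
    exact h5 i j i' j' hij ha hij' ha' hne a hb hc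

/-- Branch vertices for the edge `8`. -/
def phi8 : Fin 6 → Fin 12 := ![6, 8, 9, 7, 10, 11]

/-- Paths for the edge `8`. -/
def P8 (i j : Fin 6) : List (Fin 20 × Fin 12) :=
  if (i, j) = (0, 3) then [(18, 0), (0, 4), (4, 2), (8, 3), (3, 1), (19, 7)]
  else if (i, j) = (0, 4) then [(9, 10)]
  else if (i, j) = (0, 5) then [(10, 11)]
  else if (i, j) = (1, 3) then [(11, 7)]
  else if (i, j) = (1, 4) then [(13, 10)]
  else if (i, j) = (1, 5) then [(14, 11)]
  else if (i, j) = (2, 3) then [(12, 7)]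
  else if (i, j) = (2, 4) then [(15, 10)]
  else if (i, j) = (2, 5) then [(16, 11)]
  else []

/-- Branch vertices for the edge `17`. -/
def phi17 : Fin 6 → Fin 12 := ![0, 2, 3, 1, 4, 5]

/-- Paths for the edge `17`. -/
def P17 (i j : Fin 6) : List (Fin 20 × Fin 12) :=
  if (i, j) = (0, 3) then [(18, 6), (9, 10), (13, 8), (17, 9), (12, 7), (19, 1)]
  else if (i, j) = (0, 4) then [(0, 4)]
  else if (i, j) = (0, 5) then [(1, 5)]
  else if (i, j) = (1, 3) then [(2, 1)]
  else if (i, j) = (1, 4) then [(4, 4)]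
  else if (i, j) = (1, 5) then [(5, 5)]
  else if (i, j) = (2, 3) then [(3, 1)]
  else if (i, j) = (2, 4) then [(6, 4)]
  else if (i, j) = (2, 5) then [(7, 5)]
  else []

set_option maxRecDepth 100000 in
theorem kuratowski_8 : G0.KuratowskiEdge 8 := by
  left
  refine hasSub_of_cert phi8 P8 8 ?_ ?_ ?_ ?_ ?_ ?_
  · decide
  · decide
  · decide
  · decide
  · decide
  · decide

set_option maxRecDepth 100000 in
theorem kuratowski_17 : G0.KuratowskiEdge 17 := by
  left
  refine hasSub_of_cert phi17 P17 17 ?_ ?_ ?_ ?_ ?_ ?_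
  · decide
  · decide
  · decide
  · decide
  · decide
  · decide

lemma exists_min_list {α : Type} (f : α → ℕ) (l : List α) (h : l ≠ []) :
    ∃ a ∈ l, ∀ b ∈ l, f a ≤ f b := by
  classical
  obtain ⟨a, ha, hmin⟩ := Finset.exists_min_image (l.toFinset) f
    (by simpa [Finset.nonempty_iff_ne_empty] using h)
  exact ⟨a, by simpa using ha, fun b hb => hmin b (by simpa using hb)⟩

set_option maxRecDepth 100000 in
theorem hyp_or (m : Fin 20 → ℕ) : Hyp m ∨ Hyp (m ∘ sw) := by
  obtain ⟨P, hP, hPm⟩ := exists_min_list (fun p : Fin 20 × Fin 20 => m p.1 * m p.2) LPairs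
    (by decide)
  obtain ⟨Q, hQ, hQm⟩ := exists_min_list (fun p : Fin 20 × Fin 20 => m p.1 * m p.2) RPairs
    (by decide)
  obtain ⟨c, hc, hcm⟩ := exists_min_list m CE (by decide)
  obtain ⟨d, hd, hdm⟩ := exists_min_list m DE (by decide)
  rcases le_total (m P.1 * m P.2 * m d) (m Q.1 * m Q.2 * m c) with h | h
  · left
    refine ⟨P, hP, d, hd, fun Q' hQ' c' hc' => h.trans ?_⟩
    exact Nat.mul_le_mul (hQm Q' hQ') (hcm c' hc')
  · right
    have e1 : ∀ q ∈ RPairs, (sw q.1, sw q.2) ∈ LPairs := by decide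
    have e2 : ∀ q ∈ LPairs, (sw q.1, sw q.2) ∈ RPairs := by decide
    have e3 : ∀ x ∈ CE, sw x ∈ DE := by decide
    have e4 : ∀ x ∈ DE, sw x ∈ CE := by decide
    refine ⟨(sw Q.1, sw Q.2), e1 Q hQ, sw c, e3 c hc, fun Q' hQ' c' hc' => ?_⟩
    simp only [Function.comp, sw_sw]
    refine h.trans ?_
    exact Nat.mul_le_mul (hPm _ (e1 Q' hQ')) (hdm _ (e3 c' hc'))

end Pool.Agent.Helper69.KC
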